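import Mathlib
import Pool.Agent.H.MP_3627f5_co.B

set_option autoImplicit false

namespace Pool.Agent.Results.MP_3627f5_co.Yes

/-- A move: one pebble goes to an adjacent unoccupied vertex. -/
def Move {N n : ℕ} (G : SimpleGraph (Fin N)) (p q : Fin n → Fin N) : Prop :=
  ∃ (i : Fin n) (v : Fin N), G.Adj (p i) v ∧ v ∉ Set.range p ∧ q = Function.update p i v

/-- `p` is transformed into `q` by a sequence of `m` moves. -/
def Solves {N n : ℕ} (G : SimpleGraph (Fin N)) (p q : Fin n → Fin N) (m : ℕ) : Prop :=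
  ∃ s : ℕ → Fin n → Fin N, s 0 = p ∧ s m = q ∧ ∀ t < m, Move G (s t) (s (t + 1))

/-- An isthmus: a path of cut vertices whose edges are bridges and whose inner vertices have
degree two. -/
def Isthmus {N : ℕ} (G : SimpleGraph (Fin N)) {u v : Fin N} (w : G.Walk u v) : Prop :=
  w.IsPath ∧ (∀ e ∈ w.edges, G.IsBridge e) ∧
    (∀ x ∈ w.support, ¬ (G.induce {y | y ≠ x}).Preconnected) ∧
    ∀ i, 0 < i → i < w.length → (G.neighborSet (w.getVert i)).ncard = 2

open Pool.Agent.H.MP_3627f5_co in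
theorem result : ∃ c : ℝ, 0 < c ∧ ∀ N₀ : ℕ, ∃ N ≥ N₀, ∃ (G : SimpleGraph (Fin N)) (n : ℕ)
    (p q : Fin n → Fin N), G.IsTree ∧ Function.Injective p ∧ Function.Injective q ∧ n < N ∧
    (∀ (u v : Fin N) (w : G.Walk u v), Isthmus G w → n + (w.length + 1) < N) ∧
    (∃ m, Solves G p q m) ∧ ∀ m, Solves G p q m → c * (N : ℝ) ^ 2 * Real.log N ≤ m := by
  refine ⟨1 / 768, by norm_num, fun N₀ => ⟨2 * (3 * N₀ + 2 + 1) + 2, by omega, Sp _, _,
    pk Fin.revPerm 0, pk 1 0, Sp_tree _, pk_inj _ _, pk_inj _ _, by omega, fun u v w hw => ?_, ?_,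
    fun m ⟨s, h0, h1, h2⟩ => lower (D := N₀ + 1) (by omega) (by omega) m s h0 h1 h2⟩⟩
  · have := Sp_path w hw.1 (fun i h1 h2 e => Sp_deg (by omega) e (hw.2.2.2 i h1 h2)) (by omega)
    omega
  · obtain ⟨m, s, h0, h1, h2⟩ := rtg_seq (Pool.Agent.H.MP_f87a07_co.rtg_symm
      (fun _ _ => MI.symm) (pk_all (n := 3 * N₀ + 2) Fin.revPerm))
    exact ⟨m, s, h0, h1, fun t ht => (h2 t ht).2⟩

end Pool.Agent.Results.MP_3627f5_co.Yes
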